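import Pool.Agent.Q120.EI.Stm

set_option autoImplicit false

/-! # Project EI, job EI-CONV: gluing the bad heights -/

namespace Pool.Agent.Q211.EI

open Finset Filter Topology Pool.Agent.Q93.EHC Pool.Agent.Q120.EI

theorem conv_num (V : ℕ) : ∃ R0 : ℕ, ∀ R : ℕ, R0 ≤ R →
    Real.log R + 1 + R / Real.log (R + 2) ^ (V + 2) ≤ R / Real.log (R + 2) ^ (V + 1) := by
  have h1 : ∀ᶠ x : ℝ in atTop, ‖Real.log x ^ (V + 2)‖ ≤ 1 / 8 * ‖x‖ :=
    (Real.isLittleO_pow_log_id_atTop (n := V + 2)).def (by norm_num)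
  have h2 : ∀ᶠ x : ℝ in atTop, 2 ≤ Real.log x := Real.tendsto_log_atTop.eventually_ge_atTop 2
  obtain ⟨x0, hx0⟩ := eventually_atTop.1 (h1.and h2)
  refine ⟨⌈x0⌉₊ + 3, fun R hR => ?_⟩
  have h3 : x0 ≤ (R : ℝ) + 2 := by
    have h4 := Nat.le_ceil x0
    have h5 : ((⌈x0⌉₊ + 3 : ℕ) : ℝ) ≤ R := by exact_mod_cast hR
    push_cast at h5
    linarith
  obtain ⟨h4, h5⟩ := hx0 ((R : ℝ) + 2) h3
  have hR3 : (3 : ℝ) ≤ R := by exact_mod_cast (by omega : 3 ≤ R)
  obtain ⟨L, hL⟩ : ∃ L, L = Real.log ((R : ℝ) + 2) := ⟨_, rfl⟩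
  rw [← hL] at h4 h5 ⊢
  have hL0 : 0 < L := by linarith
  rw [Real.norm_of_nonneg (by positivity), Real.norm_of_nonneg (by positivity)] at h4
  have hlR : Real.log R ≤ L := by
    rw [hL]
    exact Real.log_le_log (by linarith) (by linarith)
  have h6 : L ^ (V + 2) ≤ R / 4 := by linarith
  have hp1 : 0 < L ^ (V + 1) := by positivity
  have hp2 : 0 < L ^ (V + 2) := by positivity
  have h7 : (R : ℝ) / L ^ (V + 2) ≤ 1 / 2 * (R / L ^ (V + 1)) := by
    rw [div_le_iff₀ hp2]
    have h8 : 1 / 2 * ((R : ℝ) / L ^ (V + 1)) * L ^ (V + 2) = 1 / 2 * R * L := by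
      rw [pow_succ L (V + 1)]
      field_simp
    rw [h8]
    nlinarith
  have h9 : 2 * L ≤ 1 / 2 * ((R : ℝ) / L ^ (V + 1)) := by
    have h10 : 2 * L * L ^ (V + 1) ≤ 1 / 2 * R := by
      have : L * L ^ (V + 1) = L ^ (V + 2) := by ring
      rw [mul_assoc, this]
      linarith
    have h11 : 2 * L ≤ (1 / 2 * R) / L ^ (V + 1) := by
      rw [le_div_iff₀ hp1]
      exact h10
    rw [mul_div_assoc] at h11
    exact h11
  linarith

/-- EI-CONV -/
theorem t_CONV : J_CONV := by
  classical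
  intro hP θ V hθ hE
  unfold EHt at hE
  push Not at hE
  obtain ⟨A, hA, hE2⟩ := hE
  have hE3 : ¬ ∃ C : ℝ, ∀ x : ℕ, 2 < x → ∑ k ∈ range ⌊(x : ℝ) ^ θ⌋₊, E x (k + 1) ≤
      C * (x * Real.log x ^ (-A)) := by
    rintro ⟨C, hC⟩
    obtain ⟨x, h1, h2⟩ := hE2 C
    exact absurd (hC x h1) (not_le.2 h2)
  have hpic := hP θ A V hθ hA hE3
  choose X M a h1 h2 h3 h4 using hpic
  obtain ⟨R0, hR0⟩ := conv_num V
  -- the heights
  set y : ℕ → ℕ := fun i => Nat.rec (R0 + 3) (fun _ z => X z + ⌈Real.exp (X z)⌉₊ + 1) i with hy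
  have hy0 : y 0 = R0 + 3 := rfl
  have hys : ∀ i, y (i + 1) = X (y i) + ⌈Real.exp (X (y i))⌉₊ + 1 := fun i => rfl
  have hlt : ∀ i, X (y i) < y (i + 1) := fun i => by rw [hys]; omega
  have hmono : StrictMono y := strictMono_nat_of_lt_succ fun i => (h1 (y i)).trans_lt (hlt i)
  have hexp : ∀ i, Real.exp (X (y i)) ≤ y (i + 1) := by
    intro i
    have h5 := Nat.le_ceil (Real.exp (X (y i)))
    rw [hys]
    push_cast
    have h6 : (0 : ℝ) ≤ X (y i) := Nat.cast_nonneg _
    linarith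
  have hyi : ∀ i, i ≤ y i := hmono.id_le
  have hy3 : ∀ i, 3 ≤ y i := by
    intro i
    have : y 0 ≤ y i := hmono.monotone (Nat.zero_le i)
    omega
  have hM1 : ∀ i, ∀ k ∈ M (y i), y i ≤ k ∧ k < X (y i) := by
    intro i k hk
    obtain ⟨h5, h6⟩ := h2 (y i) k hk
    refine ⟨h5, lt_of_lt_of_le h6 ?_⟩
    have hx1 : (1 : ℝ) ≤ X (y i) := by
      have : 1 ≤ X (y i) := by
        have := h1 (y i)
        have := hy3 i
        omega
      exact_mod_cast this
    refine Nat.floor_le_of_le ?_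
    calc (X (y i) : ℝ) ^ θ ≤ (X (y i) : ℝ) ^ (1 : ℝ) :=
          Real.rpow_le_rpow_of_exponent_le hx1 hθ.le
      _ = X (y i) := Real.rpow_one _
  have hdisj : ∀ i j k, k ∈ M (y i) → k ∈ M (y j) → i = j := by
    have h5 : ∀ i j k, i < j → k ∈ M (y i) → k ∈ M (y j) → False := by
      intro i j k hij hk1 hk2
      have h6 := (hM1 i k hk1).2
      have h7 := (hM1 j k hk2).1
      have h8 := hlt i
      have h9 : y (i + 1) ≤ y j := hmono.monotone hij
      omega
    intro i j k hk1 hk2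
    rcases lt_trichotomy i j with h | h | h
    · exact (h5 i j k h hk1 hk2).elim
    · exact h
    · exact (h5 j i k h hk2 hk1).elim
  refine ⟨{k | ∃ i, k ∈ M (y i)}, fun k => if h : ∃ i, k ∈ M (y i) then a (y h.choose) k else 1,
    ?_, ?_⟩
  · intro R F hF
    rcases F.eq_empty_or_nonempty with h0 | h0
    · rw [h0, card_empty, Nat.cast_zero]
      have : 0 ≤ Real.log ((R : ℝ) + 2) := Real.log_nonneg (by
        have : (0 : ℝ) ≤ R := Nat.cast_nonneg R
        linarith)
      positivity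
    · obtain ⟨ks, hks, hmax⟩ := F.exists_max_image id h0
      obtain ⟨⟨j, hj⟩, hksR⟩ := hF ks hks
      have hyR : y j < R := lt_of_le_of_lt (hM1 j ks hj).1 hksR
      have hRR0 : R0 ≤ R := by
        have : y 0 ≤ y j := hmono.monotone (Nat.zero_le j)
        omega
      have hsub : F ⊆ range (⌊Real.log R⌋₊ + 1) ∪ (M (y j)).filter (fun k => k < R) := by
        intro k hk
        obtain ⟨⟨i, hi⟩, hkR⟩ := hF k hk
        rw [mem_union]
        rcases lt_trichotomy i j with h | h | h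
        · left
          rw [mem_range]
          refine Nat.lt_succ_of_le (Nat.le_floor ?_)
          have h5 : (k : ℝ) ≤ X (y i) := by exact_mod_cast (hM1 i k hi).2.le
          have h6 : y (i + 1) ≤ y j := hmono.monotone h
          have h7 : ((y (i + 1) : ℕ) : ℝ) ≤ R := by exact_mod_cast (h6.trans hyR.le)
          have h8 := (hexp i).trans h7
          have h9 : Real.exp k ≤ R := (Real.exp_le_exp.2 h5).trans h8
          rw [Real.le_log_iff_exp_le (lt_of_lt_of_le (Real.exp_pos _) h9)]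
          exact h9
        · right
          rw [mem_filter, ← h]
          exact ⟨hi, hkR⟩
        · exfalso
          have h5 := (hM1 i k hi).1
          have h6 := (hM1 j ks hj).2
          have h7 : y (j + 1) ≤ y i := hmono.monotone h
          have h8 := hlt j
          have h9 : k ≤ ks := hmax k hk
          omega
      have hc := (card_le_card hsub).trans (card_union_le _ _)
      rw [card_range] at hc
      have hcR : (F.card : ℝ) ≤ (⌊Real.log R⌋₊ : ℝ) + 1 +
          ((M (y j)).filter (fun k => k < R)).card := by exact_mod_cast hc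
      have h5 := h3 (y j) R
      have hR1 : (1 : ℝ) ≤ R := by exact_mod_cast (by omega : 1 ≤ R)
      have h6 : (⌊Real.log R⌋₊ : ℝ) ≤ Real.log R := Nat.floor_le (Real.log_nonneg hR1)
      have h7 := hR0 R hRR0
      linarith
  · intro c hc hal
    obtain ⟨C, hC⟩ := hal (A + V + 6) (by positivity)
    obtain ⟨i, hi⟩ := exists_nat_gt (Real.exp C)
    obtain ⟨x, hx⟩ : ∃ x, x = X (y i) := ⟨_, rfl⟩
    have hxy : y i ≤ x := by rw [hx]; exact h1 (y i)
    have hx3 : 2 < x := by
      have := hy3 i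
      omega
    have hx3R : (2 : ℝ) < x := by exact_mod_cast hx3
    have hlog : 0 < Real.log x := Real.log_pos (by linarith)
    have hClt : C < Real.log x := by
      rw [Real.lt_log_iff_exp_lt (by linarith)]
      refine hi.trans_le ?_
      exact_mod_cast (hyi i).trans hxy
    have h5 := hC x hx3
    have h6 := h4 (y i)
    rw [← hx] at h6
    have h7 : ∑ k ∈ M (y i), |err x (k + 1) (a (y i) k : ZMod (k + 1))| ≤
        ∑ k ∈ range ⌊(x : ℝ) ^ θ⌋₊, |err x (k + 1) (c k : ZMod (k + 1))| := by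
      have h8 : ∀ k ∈ M (y i), |err x (k + 1) (a (y i) k : ZMod (k + 1))| =
          |err x (k + 1) (c k : ZMod (k + 1))| := by
        intro k hk
        have h9 : ∃ i, k ∈ M (y i) := ⟨i, hk⟩
        have h10 := hc k h9
        rw [h10]
        simp only [dif_pos h9]
        rw [hdisj _ i k h9.choose_spec hk]
      rw [sum_congr rfl h8]
      refine sum_le_sum_of_subset_of_nonneg ?_ fun k _ _ => abs_nonneg _
      intro k hk
      rw [mem_range, hx]
      exact (h2 (y i) k hk).2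
    have h8 := (h6.trans h7).trans h5
    have h9 : Real.log x ^ (-(A + V + 5)) = Real.log x * Real.log x ^ (-(A + V + 6)) := by
      have : -(A + (V : ℝ) + 5) = 1 + -(A + V + 6) := by ring
      rw [this, Real.rpow_add hlog, Real.rpow_one]
    rw [h9] at h8
    have hp : 0 < Real.log x ^ (-(A + (V : ℝ) + 6)) := Real.rpow_pos_of_pos hlog _
    have h10 : (x : ℝ) * Real.log x ^ (-(A + (V : ℝ) + 6)) * Real.log x ≤
        (x : ℝ) * Real.log x ^ (-(A + (V : ℝ) + 6)) * C := by
      linarith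
    have h11 := le_of_mul_le_mul_left h10 (mul_pos (by linarith) hp)
    linarith

end Pool.Agent.Q211.EI
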