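import Pool.Agent.Q120.EI.Stm

set_option autoImplicit false

/-! # Project EI, job EI-DYA: the summation over dyadic blocks -/

namespace Pool.Agent.Q211.EI

open Finset Pool.Agent.Q120.EI

theorem prod_le (S : Finset ℕ) (hS : ∀ p ∈ S, 2 ≤ p) :
    ∏ p ∈ S, (p : ℝ) ≤ ((S.card : ℝ) + 1) * ∏ p ∈ S, ((p : ℝ) - 1) := by
  induction S using Finset.induction_on_max with
  | empty => simp
  | insert a S ha ih =>
    have hnot : a ∉ S := fun h => lt_irrefl _ (ha a h)
    have ih' := ih fun p hp => hS p (mem_insert_of_mem hp)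
    have ha2 : 2 ≤ a := hS a (mem_insert_self a S)
    have hcard : S.card + 2 ≤ a := by
      have h1 : S ⊆ Ico 2 a := fun p hp => mem_Ico.2 ⟨hS p (mem_insert_of_mem hp), ha p hp⟩
      have h2 := card_le_card h1
      rw [Nat.card_Ico] at h2
      omega
    have hcR : (S.card : ℝ) + 2 ≤ a := by exact_mod_cast hcard
    have hP : 0 ≤ ∏ p ∈ S, ((p : ℝ) - 1) := by
      refine prod_nonneg fun p hp => ?_
      have : (2 : ℝ) ≤ p := by exact_mod_cast hS p (mem_insert_of_mem hp)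
      linarith
    rw [prod_insert hnot, prod_insert hnot, card_insert_of_notMem hnot]
    push_cast
    have ha0 : (0 : ℝ) ≤ a := Nat.cast_nonneg a
    calc (a : ℝ) * ∏ p ∈ S, (p : ℝ) ≤ a * (((S.card : ℝ) + 1) * ∏ p ∈ S, ((p : ℝ) - 1)) :=
          mul_le_mul_of_nonneg_left ih' ha0
      _ = (a * ((S.card : ℝ) + 1)) * ∏ p ∈ S, ((p : ℝ) - 1) := by ring
      _ ≤ (((S.card : ℝ) + 1 + 1) * (a - 1)) * ∏ p ∈ S, ((p : ℝ) - 1) := by
          refine mul_le_mul_of_nonneg_right ?_ hP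
          nlinarith
      _ = ((S.card : ℝ) + 1 + 1) * (((a : ℝ) - 1) * ∏ p ∈ S, ((p : ℝ) - 1)) := by ring

theorem inv_tot (q : ℕ) (hq : 1 ≤ q) :
    1 / (Nat.totient q : ℝ) ≤ (1 + 2 * Real.log q) / q := by
  have hφ : (0 : ℝ) < Nat.totient q := by exact_mod_cast Nat.totient_pos.2 hq
  have hq0 : (0 : ℝ) < q := by exact_mod_cast hq
  have h2 : ∀ p ∈ q.primeFactors, 2 ≤ p := fun p hp =>
    (Nat.prime_of_mem_primeFactors hp).two_le
  have h1 := prod_le q.primeFactors h2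
  have hP : 0 < ∏ p ∈ q.primeFactors, ((p : ℝ) - 1) := by
    refine prod_pos fun p hp => ?_
    have : (2 : ℝ) ≤ p := by exact_mod_cast h2 p hp
    linarith
  have h3 : (Nat.totient q : ℝ) * ∏ p ∈ q.primeFactors, (p : ℝ) =
      q * ∏ p ∈ q.primeFactors, ((p : ℝ) - 1) := by
    have h4 := Nat.totient_mul_prod_primeFactors q
    have h5 : ((∏ p ∈ q.primeFactors, (p - 1) : ℕ) : ℝ) =
        ∏ p ∈ q.primeFactors, ((p : ℝ) - 1) := by
      rw [Nat.cast_prod]
      refine prod_congr rfl fun p hp => ?_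
      rw [Nat.cast_sub (by have := h2 p hp; omega), Nat.cast_one]
    rw [← h5, ← Nat.cast_prod]
    exact_mod_cast h4
  have h4 : (q : ℝ) ≤ Nat.totient q * ((q.primeFactors.card : ℝ) + 1) := by
    have h5 : (q : ℝ) * ∏ p ∈ q.primeFactors, ((p : ℝ) - 1) ≤
        (Nat.totient q * ((q.primeFactors.card : ℝ) + 1)) *
          ∏ p ∈ q.primeFactors, ((p : ℝ) - 1) := by
      rw [← h3, mul_assoc]
      exact mul_le_mul_of_nonneg_left h1 hφ.le
    exact le_of_mul_le_mul_right h5 hP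
  have h5 := Pool.Agent.H441R3.BV.omega_log q hq
  rw [div_le_div_iff₀ hφ hq0, one_mul]
  calc (q : ℝ) ≤ Nat.totient q * ((q.primeFactors.card : ℝ) + 1) := h4
    _ ≤ Nat.totient q * (1 + 2 * Real.log q) := mul_le_mul_of_nonneg_left (by linarith) hφ.le
    _ = (1 + 2 * Real.log q) * Nat.totient q := mul_comm _ _

/-- EI-DYA -/
theorem t_DYA : J_DYA := by
  intro h M V m n hh hM hm hmn hR
  have hm3 : (3 : ℝ) ≤ m := by exact_mod_cast hm
  have hlm : 0 < Real.log m := Real.log_pos (by linarith)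
  have hlmV : 0 < Real.log m ^ V := pow_pos hlm V
  have hn3 : 3 ≤ n := hm.trans hmn
  have hn3R : (3 : ℝ) ≤ n := by exact_mod_cast hn3
  have hln : 0 < Real.log n := Real.log_pos (by linarith)
  obtain ⟨L, hL⟩ : ∃ L, L = Real.log n := ⟨_, rfl⟩
  rw [← hL] at hln
  have hmaps : ∀ k ∈ Ico m n, Nat.log 2 (k + 1) ∈ Icc 1 (Nat.log 2 n) := by
    intro k hk
    obtain ⟨h1, h2⟩ := mem_Ico.1 hk
    rw [mem_Icc]
    refine ⟨?_, Nat.log_mono_right (by omega)⟩
    exact Nat.log_pos (by omega) (by omega)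
  rw [← sum_fiberwise_of_maps_to hmaps]
  have hblock : ∀ i ∈ Icc 1 (Nat.log 2 n), ∑ k ∈ (Ico m n).filter (fun k =>
      Nat.log 2 (k + 1) = i), h k / (Nat.totient (k + 1) : ℝ) ≤
      2 * (1 + 2 * L) * M / Real.log m ^ V := by
    intro i _
    rcases ((Ico m n).filter fun k => Nat.log 2 (k + 1) = i).eq_empty_or_nonempty with h0 | h0
    · rw [h0, sum_empty]
      positivity
    · obtain ⟨k0, hk0⟩ := h0
      have hb : ∀ k ∈ (Ico m n).filter (fun k => Nat.log 2 (k + 1) = i),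
          m ≤ k ∧ k < n ∧ 2 ^ i ≤ k + 1 ∧ k + 1 < 2 ^ (i + 1) := by
        intro k hk
        obtain ⟨h1, h2⟩ := mem_filter.1 hk
        obtain ⟨h3, h4⟩ := mem_Ico.1 h1
        refine ⟨h3, h4, ?_, ?_⟩
        · rw [← h2]
          exact Nat.pow_log_le_self 2 (by omega)
        · rw [← h2]
          exact Nat.lt_pow_succ_log_self (by omega) _
      have h2i : (0 : ℝ) < 2 ^ i := by positivity
      have h1 : ∀ k ∈ (Ico m n).filter (fun k => Nat.log 2 (k + 1) = i),
          h k / (Nat.totient (k + 1) : ℝ) ≤ (1 + 2 * L) / 2 ^ i * h k := by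
        intro k hk
        obtain ⟨h3, h4, h5, h6⟩ := hb k hk
        have h7 := inv_tot (k + 1) (by omega)
        have h8 : Real.log ((k + 1 : ℕ) : ℝ) ≤ L := by
          rw [hL]
          exact Real.log_le_log (by positivity) (by exact_mod_cast h4)
        have h9 : (2 : ℝ) ^ i ≤ ((k + 1 : ℕ) : ℝ) := by exact_mod_cast h5
        have h10 : (1 + 2 * Real.log ((k + 1 : ℕ) : ℝ)) / ((k + 1 : ℕ) : ℝ) ≤
            (1 + 2 * L) / 2 ^ i :=
          div_le_div₀ (by linarith) (by linarith) h2i h9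
        rw [div_eq_mul_one_div, mul_comm]
        exact mul_le_mul_of_nonneg_right (h7.trans h10) (hh k)
      have h2 : ∑ k ∈ (Ico m n).filter (fun k => Nat.log 2 (k + 1) = i), h k ≤
          M * (((2 ^ (i + 1) : ℕ) : ℝ) / Real.log (((2 ^ (i + 1) : ℕ) : ℝ) + 2) ^ V) := by
        refine le_trans (sum_le_sum_of_subset_of_nonneg ?_ fun k _ _ => hh k) (hR (2 ^ (i + 1)))
        intro k hk
        obtain ⟨h3, h4, h5, h6⟩ := hb k hk
        exact mem_range.2 (by omega)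
      have h3 : Real.log m ≤ Real.log (((2 ^ (i + 1) : ℕ) : ℝ) + 2) := by
        refine Real.log_le_log (by linarith) ?_
        obtain ⟨h3, h4, h5, h6⟩ := hb k0 hk0
        have h7 : m ≤ 2 ^ (i + 1) := by omega
        have h8 : (m : ℝ) ≤ ((2 ^ (i + 1) : ℕ) : ℝ) := by exact_mod_cast h7
        linarith
      have h4 : ((2 ^ (i + 1) : ℕ) : ℝ) / Real.log (((2 ^ (i + 1) : ℕ) : ℝ) + 2) ^ V ≤
          ((2 ^ (i + 1) : ℕ) : ℝ) / Real.log m ^ V :=
        div_le_div_of_nonneg_left (Nat.cast_nonneg _) hlmV (pow_le_pow_left₀ hlm.le h3 V)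
      calc ∑ k ∈ (Ico m n).filter (fun k => Nat.log 2 (k + 1) = i),
            h k / (Nat.totient (k + 1) : ℝ)
          ≤ ∑ k ∈ (Ico m n).filter (fun k => Nat.log 2 (k + 1) = i),
            (1 + 2 * L) / 2 ^ i * h k := sum_le_sum h1
        _ = (1 + 2 * L) / 2 ^ i *
            ∑ k ∈ (Ico m n).filter (fun k => Nat.log 2 (k + 1) = i), h k := by rw [mul_sum]
        _ ≤ (1 + 2 * L) / 2 ^ i * (M * (((2 ^ (i + 1) : ℕ) : ℝ) / Real.log m ^ V)) :=
            mul_le_mul_of_nonneg_left (h2.trans (mul_le_mul_of_nonneg_left h4 hM)) (by positivity)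
        _ = 2 * (1 + 2 * L) * M / Real.log m ^ V := by
            push_cast
            field_simp
            ring
  refine (sum_le_sum hblock).trans ?_
  rw [sum_const, Nat.card_Icc, nsmul_eq_mul, Nat.add_sub_cancel, ← hL]
  have h5 := Pool.Agent.H441R3.BV.nlog_le n (by omega)
  rw [← hL] at h5
  have h6 : (Nat.log 2 n : ℝ) * (2 * (1 + 2 * L) * M / Real.log m ^ V) ≤
      2 * L * (2 * (1 + 2 * L) * M / Real.log m ^ V) :=
    mul_le_mul_of_nonneg_right h5 (by positivity)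
  refine h6.trans ?_
  rw [← mul_div_assoc]
  refine div_le_div_of_nonneg_right ?_ hlmV.le
  have h7 : 2 * L * (2 * (1 + 2 * L)) ≤ 100 * (1 + L) ^ 2 := by nlinarith
  calc 2 * L * (2 * (1 + 2 * L) * M) = 2 * L * (2 * (1 + 2 * L)) * M := by ring
    _ ≤ 100 * (1 + L) ^ 2 * M := mul_le_mul_of_nonneg_right h7 hM

end Pool.Agent.Q211.EI
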